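import Pool.Agent.Helper3.WA.Defs
import Pool.Agent.Helper88.WA.LwUnique
import Pool.Agent.Helper12.WT.A45

/-! WA-13: `rp_wd_near`, `rp_wd_zero`. -/

set_option autoImplicit false

namespace Pool.Agent.Helper59.WA

open Finset
open Pool.Agent.Helper48.ET
open Pool.Agent.Helper3.WT (rp)
open Pool.Agent.Helper3.WA
open Pool.Agent.Helper88.WA (lw_unique blockRel_congr)
open Pool.Agent.Helper12.WT (enc_succ')

variable {p : ℕ} [Fact p.Prime]

theorem finite_supp (N : ℕ) : {x : ℕ → ZMod p | ∀ u, N ≤ u → x u = 0}.Finite := by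
  have hfin : (Set.range (fun (f : Fin N → ZMod p) (u : ℕ) =>
      if h : u < N then f ⟨u, h⟩ else (0 : ZMod p))).Finite := Set.finite_range _
  refine hfin.subset ?_
  intro x hx
  refine ⟨fun u => x u, ?_⟩
  funext u
  by_cases hu : u < N
  · simp [hu]
  · simp only [hu, dite_false]
    exact (hx u (by omega)).symm

omit [Fact p.Prime] in
theorem enc_congr {N : ℕ} {x z x' z' : ℕ → ZMod p} (hx : ∀ u, u < N → x u = x' u)
    (hz : ∀ u, u < N → z u = z' u) : enc N x z = enc N x' z' := by
  unfold enc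
  refine sum_congr rfl fun u hu => ?_
  rw [hx u (mem_range.1 hu), hz u (mem_range.1 hu)]

/-- the sum determines the sums of the digits -/
theorem enc_add_fun {N N' M M' : ℕ} {x z x' z' y v y' v' : ℕ → ZMod p}
    (hx : ∀ u, N ≤ u → x u = 0) (hz : ∀ u, N ≤ u → z u = 0)
    (hx' : ∀ u, N' ≤ u → x' u = 0) (hz' : ∀ u, N' ≤ u → z' u = 0)
    (hy : ∀ u, M ≤ u → y u = 0) (hv : ∀ u, M ≤ u → v u = 0)
    (hy' : ∀ u, M' ≤ u → y' u = 0) (hv' : ∀ u, M' ≤ u → v' u = 0)
    (h : enc N x z + enc N' x' z' = enc M y v + enc M' y' v') :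
    x + x' = y + y' ∧ z + z' = v + v' := by
  have hadd := enc_add hx hz hx' hz' hy hv hy' hv' h
  constructor
  · funext u
    have := congrArg (Nat.cast : ℕ → ZMod p) (hadd u).1
    simpa using this
  · funext u
    have := congrArg (Nat.cast : ℕ → ZMod p) (hadd u).2
    simpa using this

/-- a word with a partial digit on top -/
theorem wr_word {C n l H : ℕ} (hC : 2 ≤ C) {θ : Par p} {R : Set ℕ} (hR : RSet p l H R) {b : ℕ}
    (hb : b ∈ WR C n θ R) : ∃ x z, PW C n θ x z ∧ b = enc (n + 2) x z ∧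
      LW C n θ (trunc (n + 1) x) (trunc (n + 1) z) ∧
      (x (n + 1)).val + 2 * p * (z (n + 1)).val ∈ R := by
  obtain ⟨x, z, hw, r, hr, rfl⟩ := hb
  obtain ⟨ξ, ζ, rfl⟩ := hR.form r hr
  have hlt : ∀ u, u < n + 1 → u ≠ n + 1 := fun u hu => by omega
  have ex : ∀ u, u < n + 1 → x u = Function.update x (n + 1) ξ u := fun u hu => by
    rw [Function.update_of_ne (hlt u hu)]
  have ez : ∀ u, u < n + 1 → z u = Function.update z (n + 1) ζ u := fun u hu => by
    rw [Function.update_of_ne (hlt u hu)]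
  have tx : trunc (n + 1) (Function.update x (n + 1) ξ) = x := by
    funext u
    by_cases hu : u < n + 1
    · simp only [trunc, hu, if_true]
      exact (ex u hu).symm
    · simp only [trunc, hu, if_false]
      exact (hw.xs u (by omega)).symm
  have tz : trunc (n + 1) (Function.update z (n + 1) ζ) = z := by
    funext u
    by_cases hu : u < n + 1
    · simp only [trunc, hu, if_true]
      exact (ez u hu).symm
    · simp only [trunc, hu, if_false]
      exact (hw.zs u (by omega)).symm
  refine ⟨Function.update x (n + 1) ξ, Function.update z (n + 1) ζ, ⟨?_, ?_, ?_, ?_⟩, ?_, ?_, ?_⟩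
  · intro u hu
    rw [Function.update_of_ne (by omega)]
    exact hw.xs u (by omega)
  · intro u hu
    rw [Function.update_of_ne (by omega)]
    exact hw.zs u (by omega)
  · intro i
    exact blockRel_congr (by omega) (fun u hu => ex u (by omega)) (fun u hu => ez u (by omega))
      (hw.rel i)
  · rw [← ez n (by omega), ← ex n (by omega), hw.top]
    refine congrArg₂ _ rfl (sum_congr rfl fun v hv => ?_)
    rw [← ex v (by have := mem_range.1 hv; omega)]
  · rw [show n + 2 = (n + 1) + 1 from rfl, enc_succ' (n + 1), Function.update_self,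
      Function.update_self, enc_congr ex ez, mul_comm ((2 * p) ^ (2 * (n + 1)))]
  · rw [tx, tz]
    exact hw
  · rw [Function.update_self, Function.update_self]
    exact hr

open Classical in
/-- WA-13 -/
theorem rp_wd_near {C n B l H : ℕ} (hC : 2 ≤ C) {θ' θ : Par p} (hlam : θ.lam ≠ 0)
    (h : ∀ t w : ℕ → ZMod p,
      (trunc (n + 1) '' SolG (PW C n θ') (LW C (n + 1) θ) t w).ncard ≤ B) {R : Set ℕ}
    (hR : RSet p l H R) (m : ℕ) : rp (Wd C (n + 1) θ) (WR C n θ' R) m ≤ B * H := by
  unfold rp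
  set P1 : Set (ℕ × ℕ) := {q | q.1 ∈ Wd C (n + 1) θ ∧ q.2 ∈ WR C n θ' R ∧ q.1 + q.2 = m} with hP1
  rcases P1.eq_empty_or_nonempty with he | ⟨q0, ⟨y0, v0, h1, e1⟩, hw0, e3⟩
  · rw [he]
    simp
  · obtain ⟨x0, z0, h2, e2, -, -⟩ := wr_word hC hR hw0
    set t := x0 + y0 with ht
    set w := z0 + v0 with hw
    set T := trunc (n + 1) '' SolG (PW C n θ') (LW C (n + 1) θ) t w with hT
    have hTfin : T.Finite := by
      refine (finite_supp (p := p) (n + 1)).subset ?_
      rintro _ ⟨x, -, rfl⟩ u hu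
      simp [trunc, not_lt.mpr hu]
    let zof : (ℕ → ZMod p) → (ℕ → ZMod p) := fun x' =>
      if h : ∃ z, LW C n θ' x' z then Classical.choose h else 0
    have hzof : ∀ x' z', LW C n θ' x' z' → zof x' = z' := by
      intro x' z' hc
      have hex : ∃ z, LW C n θ' x' z := ⟨z', hc⟩
      simp only [zof, dif_pos hex]
      exact lw_unique hC (Classical.choose_spec hex) hc
    let tws : (ℕ → ZMod p) → ZMod p := fun x' =>
      ∑ u ∈ range (n + 1), θ.tau 0 2 u * (t u - x' u)
    let K : (ℕ → ZMod p) → Set (ZMod p × ZMod p) := fun x' =>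
      {k | k.1.val + 2 * p * k.2.val ∈ R ∧
        (w (n + 1) - tws x') - k.2 = θ.lam * (t (n + 1) - k.1) ^ 2}
    have hKfin : ∀ x', (K x').Finite := fun x' => Set.toFinite _
    let bb : (ℕ → ZMod p) → ZMod p × ZMod p → ℕ := fun x' k =>
      enc (n + 1) x' (zof x') + (k.1.val + 2 * p * k.2.val) * (2 * p) ^ (2 * (n + 1))
    let g : (ℕ → ZMod p) → ZMod p × ZMod p → ℕ × ℕ := fun x' k => (m - bb x' k, bb x' k)
    have hsub : P1 ⊆ ↑(hTfin.toFinset.biUnion fun x' => (hKfin x').toFinset.image (g x')) := by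
      rintro q ⟨⟨y, v, h3, f1⟩, hw3, f3⟩
      obtain ⟨x, z, h4, f2, h5, h6⟩ := wr_word hC hR hw3
      obtain ⟨hx, hz⟩ := enc_add_fun (N := n + 2) (N' := n + 2) (M := n + 2) (M' := n + 2)
        (fun u hu => h2.xs u (by omega)) (fun u hu => h2.zs u (by omega))
        (fun u hu => h1.xs u (by omega)) (fun u hu => h1.zs u (by omega))
        (fun u hu => h4.xs u (by omega)) (fun u hu => h4.zs u (by omega))
        (fun u hu => h3.xs u (by omega)) (fun u hu => h3.zs u (by omega))
        (by
          have e1' : q0.1 = enc (n + 2) y0 v0 := e1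
          have f1' : q.1 = enc (n + 2) y v := f1
          rw [← e1', ← e2, ← f1', ← f2]
          omega)
      have ey : t - x = y := by
        rw [ht, hx]
        exact add_sub_cancel_left x y
      have ev : w - z = v := by
        rw [hw, hz]
        exact add_sub_cancel_left z v
      have hxT : trunc (n + 1) x ∈ T := ⟨x, ⟨z, h4, by rw [ey, ev]; exact h3⟩, rfl⟩
      have hxu : ∀ u, u < n + 1 → trunc (n + 1) x u = x u := fun u hu => by simp [trunc, hu]
      have hzu : ∀ u, u < n + 1 → trunc (n + 1) z u = z u := fun u hu => by simp [trunc, hu]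
      have htw : tws (trunc (n + 1) x) = ∑ u ∈ range (n + 1), θ.tau 0 2 u * y u := by
        refine sum_congr rfl fun u hu => ?_
        rw [hxu u (mem_range.1 hu), ← ey]
        rfl
      have htop : w (n + 1) - z (n + 1) = θ.lam * (t (n + 1) - x (n + 1)) ^ 2 +
          ∑ u ∈ range (n + 1), θ.tau 0 2 u * y u := by
        have := h3.top
        rw [← ev, ← ey] at this
        rw [← ey]
        exact this
      have hbb : bb (trunc (n + 1) x) (x (n + 1), z (n + 1)) = q.2 := by
        simp only [bb]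
        rw [hzof _ _ h5, f2, show n + 2 = (n + 1) + 1 from rfl, enc_succ' (n + 1) x z,
          enc_congr hxu hzu]
      refine Finset.mem_coe.2 (mem_biUnion.2 ⟨trunc (n + 1) x, hTfin.mem_toFinset.2 hxT,
        mem_image.2 ⟨(x (n + 1), z (n + 1)), (hKfin _).mem_toFinset.2 ⟨h6, ?_⟩, ?_⟩⟩)
      · show (w (n + 1) - tws (trunc (n + 1) x)) - z (n + 1) =
          θ.lam * (t (n + 1) - x (n + 1)) ^ 2
        rw [htw, sub_right_comm, htop]
        ring
      · refine Prod.ext ?_ hbb
        show m - bb (trunc (n + 1) x) (x (n + 1), z (n + 1)) = q.1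
        rw [hbb]
        omega
    calc P1.ncard ≤ (↑(hTfin.toFinset.biUnion fun x' => (hKfin x').toFinset.image (g x')) :
          Set (ℕ × ℕ)).ncard := Set.ncard_le_ncard hsub (Finset.finite_toSet _)
      _ = (hTfin.toFinset.biUnion fun x' => (hKfin x').toFinset.image (g x')).card :=
          Set.ncard_coe_finset _
      _ ≤ hTfin.toFinset.card * H := by
          refine card_biUnion_le_card_mul _ _ _ fun x' _ => ?_
          refine card_image_le.trans ?_
          rw [← Set.ncard_eq_toFinset_card _ (hKfin x')]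
          exact hR.RK θ.lam (t (n + 1)) (w (n + 1) - tws x') hlam
      _ ≤ B * H := by
          refine Nat.mul_le_mul_right _ ?_
          rw [← Set.ncard_eq_toFinset_card _ hTfin]
          exact h t w

/-- WA-13 -/
theorem rp_wd_zero {C n l H : ℕ} (hC : 2 ≤ C) {θ : Par p} (hlam : θ.lam ≠ 0)
    (htau : θ.tau 0 2 0 ≠ 0) {R : Set ℕ} (hR : RSet p l H R) (hH : 1 ≤ H) (m : ℕ) :
    rp (Wd C n θ) R m ≤ H := by
  classical
  unfold rp
  -- an element of `R` as an integer with one digit pair
  have hform : ∀ r ∈ R, ∃ x z : ℕ → ZMod p, (∀ u, 1 ≤ u → x u = 0) ∧ (∀ u, 1 ≤ u → z u = 0) ∧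
      r = enc 1 x z ∧ (x 0).val + 2 * p * (z 0).val ∈ R := by
    intro r hr
    obtain ⟨ξ, ζ, rfl⟩ := hR.form r hr
    refine ⟨fun u => if u = 0 then ξ else 0, fun u => if u = 0 then ζ else 0, ?_, ?_, ?_, ?_⟩
    · intro u hu
      simp [show u ≠ 0 by omega]
    · intro u hu
      simp [show u ≠ 0 by omega]
    · simp [enc]
    · simpa using hr
  have hr0 : ∀ x z : ℕ → ZMod p, enc 1 x z = (x 0).val + 2 * p * (z 0).val := by
    intro x z
    simp [enc]
  set P1 : Set (ℕ × ℕ) := {q | q.1 ∈ Wd C n θ ∧ q.2 ∈ R ∧ q.1 + q.2 = m} with hP1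
  rcases P1.eq_empty_or_nonempty with he | ⟨q0, ⟨y0, v0, h1, e1⟩, hw0, e3⟩
  · rw [he]
    simp
  · obtain ⟨x0, z0, h2, h2', e2, -⟩ := hform _ hw0
    have key : ∀ q ∈ P1, ∃ x z y v : ℕ → ZMod p, (∀ u, 1 ≤ u → x u = 0) ∧
        (∀ u, 1 ≤ u → z u = 0) ∧ LW C n θ y v ∧ q.1 = enc (n + 1) y v ∧ q.2 = enc 1 x z ∧
        (x 0).val + 2 * p * (z 0).val ∈ R ∧ x0 + y0 - x = y ∧ z0 + v0 - z = v := by
      rintro q ⟨⟨y, v, h3, f1⟩, hw3, f3⟩
      obtain ⟨x, z, h4, h4', f2, h6⟩ := hform _ hw3
      obtain ⟨hx, hz⟩ := enc_add_fun (N := 1) (N' := n + 1) (M := 1) (M' := n + 1)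
        h2 h2' (fun u hu => h1.xs u (by omega)) (fun u hu => h1.zs u (by omega))
        h4 h4' (fun u hu => h3.xs u (by omega)) (fun u hu => h3.zs u (by omega))
        (by
          have e1' : q0.1 = enc (n + 1) y0 v0 := e1
          have f1' : q.1 = enc (n + 1) y v := f1
          rw [← e1', ← e2, ← f1', ← f2]
          omega)
      refine ⟨x, z, y, v, h4, h4', h3, f1, f2, h6, ?_, ?_⟩
      · rw [hx]
        exact add_sub_cancel_left x y
      · rw [hz]
        exact add_sub_cancel_left z v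
    rcases Nat.eq_zero_or_pos n with hn | hn
    · -- one digit
      subst hn
      set K : Set (ZMod p × ZMod p) := {k | k.1.val + 2 * p * k.2.val ∈ R ∧
        (z0 + v0) 0 - k.2 = θ.lam * ((x0 + y0) 0 - k.1) ^ 2} with hK
      have hKfin : K.Finite := Set.toFinite _
      have hsub : P1 ⊆ (fun k : ZMod p × ZMod p =>
          (m - (k.1.val + 2 * p * k.2.val), k.1.val + 2 * p * k.2.val)) '' K := by
        intro q hq
        obtain ⟨x, z, y, v, -, -, h5, f1, f2, h6, hy, hv⟩ := key q hq
        have hs : q.1 + q.2 = m := hq.2.2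
        refine ⟨(x 0, z 0), ⟨h6, ?_⟩, ?_⟩
        · have := h5.top
          rw [← hy, ← hv] at this
          simpa using this
        · rw [hr0] at f2
          refine Prod.ext ?_ f2.symm
          show m - ((x 0).val + 2 * p * (z 0).val) = q.1
          omega
      exact (Set.ncard_le_ncard hsub (hKfin.image _)).trans
        ((Set.ncard_image_le hKfin).trans (hR.RK θ.lam _ _ hlam))
    · -- the top digit determines the partial digit
      refine le_trans ?_ hH
      rw [Set.ncard_le_one (Pool.Agent.Helper12.WT.rp_set_finite _ _ m)]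
      intro q hq q' hq'
      obtain ⟨x, z, y, v, g1, g2, g3, f1, f2, -, hy, hv⟩ := key q hq
      obtain ⟨x', z', y', v', g1', g2', g3', f1', f2', -, hy', hv'⟩ := key q' hq'
      have hs : q.1 + q.2 = m := hq.2.2
      have hs' : q'.1 + q'.2 = m := hq'.2.2
      have hyu : ∀ u, 1 ≤ u → y u = y' u := by
        intro u hu
        rw [← hy, ← hy', Pi.sub_apply, Pi.sub_apply, g1 u hu, g1' u hu]
      have hvu : ∀ u, 1 ≤ u → v u = v' u := by
        intro u hu
        rw [← hv, ← hv', Pi.sub_apply, Pi.sub_apply, g2 u hu, g2' u hu]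
      obtain ⟨k, rfl⟩ : ∃ k, n = k + 1 := ⟨n - 1, by omega⟩
      have ht1 := g3.top
      have ht2 := g3'.top
      rw [sum_range_succ'] at ht1 ht2
      have hsum : ∑ u ∈ range k, θ.tau 0 2 (u + 1) * y (u + 1) =
          ∑ u ∈ range k, θ.tau 0 2 (u + 1) * y' (u + 1) :=
        sum_congr rfl fun u _ => by rw [hyu (u + 1) (by omega)]
      rw [hvu (k + 1) (by omega), hyu (k + 1) (by omega), hsum] at ht1
      rw [ht1] at ht2
      have h7 : θ.tau 0 2 0 * y 0 = θ.tau 0 2 0 * y' 0 := by
        have := add_left_cancel ht2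
        exact add_left_cancel this
      have h8 : y 0 = y' 0 := mul_left_cancel₀ htau h7
      have h9 : y = y' := by
        funext u
        rcases Nat.eq_zero_or_pos u with hu | hu
        · rw [hu, h8]
        · exact hyu u hu
      subst h9
      have h10 : v = v' := lw_unique hC g3 g3'
      subst h10
      have h11 : q.1 = q'.1 := f1.trans f1'.symm
      exact Prod.ext h11 (by omega)

end Pool.Agent.Helper59.WA
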