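import Pool.Agent.Helper3.WA.Defs

/-! WA-25: `lower_comb`. -/

set_option autoImplicit false

namespace Pool.Agent.Helper59.WA

open Finset Filter
open Pool.Agent.Helper3.WA

theorem W_succ (σ : SysA) (k : ℕ) : σ.W (k + 1) = σ.W k * (2 * σ.p k) ^ (2 * σ.M k) := by
  simp [SysA.W, prod_range_succ]

theorem p_pos (σ : SysA) (k : ℕ) : 1 ≤ σ.p k := by
  have h1 := (σ.comp k).two_le
  have h2 := (σ.comp k).beta_pos
  have h3 := (σ.comp k).lab_le
  have h4 : 1 * 1 ≤ 2 * σ.M k * σ.β k := Nat.mul_le_mul (by omega) h2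
  omega

theorem two_pow_le_W (σ : SysA) (k : ℕ) : 2 ^ k ≤ σ.W k := by
  induction k with
  | zero => simp [SysA.W]
  | succ k ih =>
    rw [W_succ, pow_succ]
    refine Nat.mul_le_mul ih ?_
    have h1 := (σ.comp k).two_le
    have h2 := p_pos σ k
    calc 2 ≤ 2 * σ.p k := by omega
      _ = (2 * σ.p k) ^ 1 := (pow_one _).symm
      _ ≤ (2 * σ.p k) ^ (2 * σ.M k) := Nat.pow_le_pow_right (by omega) (by omega)

theorem W_eq_sq (σ : SysA) (k : ℕ) : σ.W k = (∏ j ∈ range k, (2 * σ.p j) ^ σ.M j) ^ 2 := by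
  unfold SysA.W
  rw [← prod_pow]
  refine prod_congr rfl fun j _ => ?_
  rw [← pow_mul, mul_comm (σ.M j) 2]

/-- loss of one complete component -/
theorem one_loss (σ : SysA) (k : ℕ) :
    (2 * σ.p k) ^ σ.M k ≤ 2 ^ σ.M k * (4 * σ.M k) * (σ.β k * σ.p k ^ (σ.M k - 1)) := by
  have h1 := (σ.comp k).two_le
  have h2 := (σ.comp k).le_lab
  have h3 : (2 * σ.p k) ^ σ.M k = 2 ^ σ.M k * σ.p k * σ.p k ^ (σ.M k - 1) := by
    rw [mul_pow, mul_assoc, ← pow_succ', Nat.sub_add_cancel (by omega)]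
  rw [h3]
  calc 2 ^ σ.M k * σ.p k * σ.p k ^ (σ.M k - 1)
      ≤ 2 ^ σ.M k * (4 * σ.M k * σ.β k) * σ.p k ^ (σ.M k - 1) :=
        Nat.mul_le_mul_right _ (Nat.mul_le_mul_left _ h2)
    _ = _ := by ring

/-- loss of the partial component -/
theorem part_loss (σ : SysA) (k N : ℕ) :
    (2 * σ.p k) ^ N ≤ 2 ^ N * (4 * σ.M k) * cw (σ.p k) (σ.β k) N := by
  have h1 := (σ.comp k).two_le
  have h2 := (σ.comp k).le_lab
  unfold cw
  rcases Nat.eq_zero_or_pos N with h | h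
  · subst h
    simp only [pow_zero, if_true, one_mul, mul_one]
    omega
  · rw [if_neg (by omega)]
    have h3 : (2 * σ.p k) ^ N = 2 ^ N * σ.p k * σ.p k ^ (N - 1) := by
      rw [mul_pow, mul_assoc, ← pow_succ', Nat.sub_add_cancel (by omega)]
    rw [h3]
    calc 2 ^ N * σ.p k * σ.p k ^ (N - 1)
        ≤ 2 ^ N * (4 * σ.M k * σ.β k) * σ.p k ^ (N - 1) :=
          Nat.mul_le_mul_right _ (Nat.mul_le_mul_left _ h2)
      _ = _ := by ring

theorem prod_loss (σ : SysA) (K : ℕ) :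
    ∏ j ∈ range K, (2 * σ.p j) ^ σ.M j ≤
      2 ^ (∑ i ∈ range K, σ.M i) * (∏ i ∈ range K, 4 * σ.M i) * σ.cl K := by
  calc ∏ j ∈ range K, (2 * σ.p j) ^ σ.M j
      ≤ ∏ j ∈ range K, (2 ^ σ.M j * (4 * σ.M j) * (σ.β j * σ.p j ^ (σ.M j - 1))) :=
        prod_le_prod' fun j _ => one_loss σ j
    _ = _ := by
        unfold SysA.cl
        rw [prod_mul_distrib, prod_mul_distrib, prod_pow_eq_pow_sum]

/-- WA-25: every large `x` has a component, a length and a size of the partial digit with small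
loss -/
theorem lower_comb (σ : SysA) {x : ℕ} (hx : σ.W 1 * 2 ^ (2 * σ.l 1 + 8) ≤ x)
    (hl : ∀ k, 2 ^ (2 * σ.l k + 8) ≤ (2 * σ.p k) ^ 2) (hmono : ∀ k, σ.l k ≤ σ.l (k + 1)) :
    ∃ K N y, 1 ≤ K ∧ N < σ.M K ∧ 2 ^ (2 * σ.l K + 8) ≤ y ∧ y ≤ (2 * σ.p K) ^ 2 ∧
      σ.W K * (2 * σ.p K) ^ (2 * N) * y ≤ x ∧ x < σ.W (K + 2) ∧
      x ≤ (2 ^ (∑ i ∈ range K, σ.M i + N + σ.l K + σ.l (K + 1) + 4) *
        (∏ i ∈ range (K + 1), 4 * σ.M i) * (σ.cl K * cw (σ.p K) (σ.β K) N)) ^ 2 * y := by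
  classical
  -- the component
  have hex : ∃ K, 1 ≤ K ∧ ¬ σ.W (K + 1) * 2 ^ (2 * σ.l (K + 1) + 8) ≤ x := by
    refine ⟨x + 1, by omega, ?_⟩
    intro h
    have h1 := two_pow_le_W σ (x + 1 + 1)
    have h2 : x + 1 + 1 < 2 ^ (x + 1 + 1) := Nat.lt_two_pow_self
    have h3 : 1 ≤ 2 ^ (2 * σ.l (x + 1 + 1) + 8) := Nat.one_le_two_pow
    have h4 : σ.W (x + 1 + 1) ≤ σ.W (x + 1 + 1) * 2 ^ (2 * σ.l (x + 1 + 1) + 8) :=
      Nat.le_mul_of_pos_right _ h3
    omega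
  obtain ⟨K, ⟨hK1, hKn⟩, hKmin⟩ :
      ∃ K, (1 ≤ K ∧ ¬ σ.W (K + 1) * 2 ^ (2 * σ.l (K + 1) + 8) ≤ x) ∧
      ∀ m, m < K → ¬ (1 ≤ m ∧ ¬ σ.W (m + 1) * 2 ^ (2 * σ.l (m + 1) + 8) ≤ x) :=
    ⟨Nat.find hex, Nat.find_spec hex, fun m hm => Nat.find_min hex hm⟩
  have hKx : σ.W K * 2 ^ (2 * σ.l K + 8) ≤ x := by
    rcases Nat.eq_or_lt_of_le hK1 with h | h
    · rw [← h]
      exact hx
    · have h1 := hKmin (K - 1) (by omega)
      have h2 : K - 1 + 1 = K := by omega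
      rw [h2] at h1
      by_contra h3
      exact h1 ⟨by omega, h3⟩
  push Not at hKn
  -- the length
  have hMK := (σ.comp K).two_le
  have hpK := p_pos σ K
  set Y := 2 ^ (2 * σ.l K + 8) with hY
  have hP0 : σ.W K * (2 * σ.p K) ^ (2 * 0) * Y ≤ x := by simpa using hKx
  set N := Nat.findGreatest (fun N => σ.W K * (2 * σ.p K) ^ (2 * N) * Y ≤ x) (σ.M K - 1) with hN
  have hNM : N ≤ σ.M K - 1 := Nat.findGreatest_le _
  have hNx : σ.W K * (2 * σ.p K) ^ (2 * N) * Y ≤ x :=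
    Nat.findGreatest_spec (P := fun N => σ.W K * (2 * σ.p K) ^ (2 * N) * Y ≤ x)
      (Nat.zero_le _) hP0
  set D := σ.W K * (2 * σ.p K) ^ (2 * N) with hD
  have hDpos : 0 < D := by
    have h1 : 0 < σ.W K := lt_of_lt_of_le Nat.one_le_two_pow (two_pow_le_W σ K)
    have h2 : 0 < (2 * σ.p K) ^ (2 * N) := Nat.pow_pos (by omega)
    exact Nat.mul_pos h1 h2
  have hYy : Y ≤ min (x / D) ((2 * σ.p K) ^ 2) := by
    refine le_min ?_ (hl K)
    rw [Nat.le_div_iff_mul_le hDpos, mul_comm]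
    exact hNx
  have hyQ : min (x / D) ((2 * σ.p K) ^ 2) ≤ (2 * σ.p K) ^ 2 := min_le_right _ _
  have hDy : D * min (x / D) ((2 * σ.p K) ^ 2) ≤ x :=
    (Nat.mul_le_mul_left _ (min_le_left _ _)).trans (Nat.mul_div_le _ _)
  have hYK : Y ≤ 2 ^ (2 * σ.l (K + 1) + 8) :=
    Nat.pow_le_pow_right (by norm_num) (by have := hmono K; omega)
  -- the main estimate
  have hmain : x ≤ D * min (x / D) ((2 * σ.p K) ^ 2) * 2 ^ (2 * σ.l (K + 1) + 8) := by
    rcases le_total (x / D) ((2 * σ.p K) ^ 2) with h | h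
    · rw [min_eq_left h]
      rw [min_eq_left h] at hYy
      have h1 : 1 ≤ x / D := le_trans Nat.one_le_two_pow hYy
      have h2 : x < D * (x / D + 1) := by
        have := Nat.lt_mul_div_succ x hDpos
        simpa using this
      have h3 : 2 ≤ 2 ^ (2 * σ.l (K + 1) + 8) := by
        calc 2 = 2 ^ 1 := rfl
          _ ≤ _ := Nat.pow_le_pow_right (by norm_num) (by omega)
      calc x ≤ D * (x / D + 1) := h2.le
        _ ≤ D * (x / D * 2) := Nat.mul_le_mul_left _ (by omega)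
        _ = D * (x / D) * 2 := by ring
        _ ≤ _ := Nat.mul_le_mul_left _ h3
    · rw [min_eq_right h]
      have h1 : D * (2 * σ.p K) ^ 2 = σ.W K * (2 * σ.p K) ^ (2 * (N + 1)) := by
        rw [hD, mul_assoc, ← pow_add]
        congr 2
      rw [h1]
      rcases Nat.lt_or_ge N (σ.M K - 1) with hlt | hge
      · have h2 : ¬ σ.W K * (2 * σ.p K) ^ (2 * (N + 1)) * Y ≤ x := by
          intro h
          have := Nat.le_findGreatest
            (P := fun N => σ.W K * (2 * σ.p K) ^ (2 * N) * Y ≤ x) (Nat.succ_le_of_lt hlt) h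
          omega
        push Not at h2
        exact h2.le.trans (Nat.mul_le_mul_left _ hYK)
      · have hNe : N + 1 = σ.M K := by omega
        rw [hNe, ← W_succ]
        exact hKn.le
  refine ⟨K, N, min (x / D) ((2 * σ.p K) ^ 2), hK1, by omega, hYy, hyQ, hDy, ?_, ?_⟩
  · refine lt_of_lt_of_le hKn ?_
    rw [W_succ σ (K + 1)]
    refine Nat.mul_le_mul_left _ ((hl (K + 1)).trans (Nat.pow_le_pow_right ?_ ?_))
    · have := p_pos σ (K + 1)
      omega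
    · have := (σ.comp (K + 1)).two_le
      omega
  · refine hmain.trans ?_
    have h1 : D * min (x / D) ((2 * σ.p K) ^ 2) * 2 ^ (2 * σ.l (K + 1) + 8) =
        ((∏ j ∈ range K, (2 * σ.p j) ^ σ.M j) * (2 * σ.p K) ^ N * 2 ^ (σ.l (K + 1) + 4)) ^ 2 *
          min (x / D) ((2 * σ.p K) ^ 2) := by
      rw [hD, W_eq_sq, mul_comm 2 N, pow_mul (2 * σ.p K) N 2]
      have h2 : 2 ^ (2 * σ.l (K + 1) + 8) = (2 ^ (σ.l (K + 1) + 4)) ^ 2 := by
        rw [← pow_mul]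
        congr 1
        ring
      rw [h2]
      ring
    rw [h1]
    refine Nat.mul_le_mul_right _ (Nat.pow_le_pow_left ?_ 2)
    rw [prod_range_succ]
    calc (∏ j ∈ range K, (2 * σ.p j) ^ σ.M j) * (2 * σ.p K) ^ N * 2 ^ (σ.l (K + 1) + 4)
        ≤ (2 ^ (∑ i ∈ range K, σ.M i) * (∏ i ∈ range K, 4 * σ.M i) * σ.cl K) *
            (2 ^ N * (4 * σ.M K) * cw (σ.p K) (σ.β K) N) * 2 ^ (σ.l (K + 1) + 4) :=
          Nat.mul_le_mul_right _ (Nat.mul_le_mul (prod_loss σ K) (part_loss σ K N))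
      _ = 2 ^ (∑ i ∈ range K, σ.M i + N + (σ.l (K + 1) + 4)) *
          ((∏ i ∈ range K, 4 * σ.M i) * (4 * σ.M K)) * (σ.cl K * cw (σ.p K) (σ.β K) N) := by
          rw [pow_add 2 (∑ i ∈ range K, σ.M i + N), pow_add 2 (∑ i ∈ range K, σ.M i)]
          ring
      _ ≤ _ := by
          refine Nat.mul_le_mul_right _ (Nat.mul_le_mul_right _
            (Nat.pow_le_pow_right (by norm_num) ?_))
          omega

end Pool.Agent.Helper59.WA
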